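import Pool.Agent.ASE.Stmts7

/-!
# Squad ASE, row KLP: the projections of the lines of `RL`
-/

set_option autoImplicit false

noncomputable section

namespace Pool.Agent.PP.SE.H96

open Pool.Agent.PP.SD

theorem klp (hPrb : PrbStmt) (hMpb : MpbStmt) : KlpStmt := by
  intro ℓ hℓ V₀ _ _ E₀ hF _ _ _ ρ P Z hρ hP hZ
  have hp : ℓ.Prime := hℓ.out
  have hcP : ∀ (a : {a : Subgroup V₀ // a ∈ RL ℓ E₀}) (v : V₀), pr ℓ E₀ a.1 v ∈ a.1 := fun a =>
    (hPrb ℓ V₀ E₀ hF a.1).2.2.2.2.1 a.2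
  have hpp : ∀ (a : {a : Subgroup V₀ // a ∈ RL ℓ E₀}), P a * P a = P a := by
    intro a
    refine LinearMap.ext fun v => ?_
    show P a (P a (Additive.ofMul (Additive.toMul v))) = P a (Additive.ofMul (Additive.toMul v))
    rw [hP a, hP a, (hPrb ℓ V₀ E₀ hF a.1).1 _ (hcP a _)]
  have hmpR : ∀ σ : E₀, ∀ a ∈ RL ℓ E₀, mp σ.1 a ∈ RL ℓ E₀ := by
    intro σ a ha
    refine ⟨?_, ?_⟩
    · rw [(hMpb V₀ σ.1 σ.1 a a).2.2.1]
      exact ha.1
    · rw [((hPrb ℓ V₀ E₀ hF a).2.2.2.1 σ.1 σ.2).1]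
      exact ha.2
  refine ⟨hpp, ?_, ?_, ?_, ?_⟩
  · intro a
    have h1 : LinearMap.IsProj (LinearMap.range (P a)) (P a) :=
      ⟨fun x => ⟨x, rfl⟩, fun x hx => by
        obtain ⟨y, rfl⟩ := hx
        exact LinearMap.congr_fun (hpp a) y⟩
    rw [h1.trace]
    have h2 : Nat.card (LinearMap.range (P a)) = ℓ := by
      refine Eq.trans (Nat.card_congr (β := a.1) ?_) a.2.1
      exact
        { toFun := fun v => ⟨Additive.toMul v.1, by
            obtain ⟨y, hy⟩ := v.2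
            rw [← hy]
            show Additive.toMul (P a (Additive.ofMul (Additive.toMul y))) ∈ a.1
            rw [hP a]
            exact hcP a _⟩
          invFun := fun w => ⟨Additive.ofMul w.1, ⟨Additive.ofMul w.1, by
            rw [hP a, (hPrb ℓ V₀ E₀ hF a.1).1 _ w.2]⟩⟩
          left_inv := fun v => rfl
          right_inv := fun w => rfl }
    have hfr : Fintype (LinearMap.range (P a)) := Fintype.ofFinite _
    have h3 := Module.card_eq_pow_finrank (K := ZMod ℓ) (V := LinearMap.range (P a))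
    rw [← Nat.card_eq_fintype_card, ← Nat.card_eq_fintype_card, h2, Nat.card_zmod] at h3
    have h4 : Module.finrank (ZMod ℓ) (LinearMap.range (P a)) = 1 :=
      (Nat.pow_right_injective hp.two_le (by
        show ℓ ^ Module.finrank (ZMod ℓ) (LinearMap.range (P a)) = ℓ ^ 1
        rw [← h3, pow_one]))
    rw [h4, Nat.cast_one]
  · intro a
    have h1 : 1 < Nat.card (St E₀ a.1) := a.2.2
    have h2 := Finite.one_lt_card_iff_nontrivial.mp h1
    obtain ⟨τ, hτ⟩ := exists_ne (1 : St E₀ a.1)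
    refine ⟨⟨τ.1, τ.2.1⟩, ?_, ?_⟩
    · refine LinearMap.ext fun v => ?_
      show ρ _ (P a (Additive.ofMul (Additive.toMul v))) = P a (Additive.ofMul (Additive.toMul v))
      rw [hP a, hρ, ((hPrb ℓ V₀ E₀ hF a.1).2.2.1 τ.1 τ.2 _).2]
    · intro h3
      apply hτ
      apply Subtype.ext
      refine MulEquiv.ext fun v => ?_
      have h4 := LinearMap.congr_fun h3 (Additive.ofMul v)
      rw [hρ] at h4
      exact Additive.ofMul.injective h4
  · intro θ hθ a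
    have hft : Fintype (St E₀ a.1) := Fintype.ofFinite _
    have h1 : ∑ τ : St E₀ a.1, ρ ⟨τ.1, τ.2.1⟩ = ((nS E₀ a.1 : ℕ) : ZMod ℓ) • P a := by
      refine LinearMap.ext fun v => ?_
      rw [LinearMap.sum_apply, LinearMap.smul_apply, Nat.cast_smul_eq_nsmul]
      have h2 := (hPrb ℓ V₀ E₀ hF a.1).2.2.2.2.2.2.2.2.2 (Additive.toMul v)
      rw [finprod_eq_prod_of_fintype] at h2
      have h3 : ∑ τ : St E₀ a.1, (ρ ⟨τ.1, τ.2.1⟩) v =
          Additive.ofMul (∏ τ : St E₀ a.1, (τ : MulAut V₀) (Additive.toMul v)) := by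
        rw [ofMul_prod]
        exact Finset.sum_congr rfl fun τ _ => hρ ⟨τ.1, τ.2.1⟩ (Additive.toMul v)
      rw [h3, h2, ofMul_pow]
      show _ = nS E₀ a.1 • P a (Additive.ofMul (Additive.toMul v))
      rw [hP a]
    have h2 : θ * (((nS E₀ a.1 : ℕ) : ZMod ℓ) • P a) = (((nS E₀ a.1 : ℕ) : ZMod ℓ) • P a) * θ := by
      rw [← h1, Finset.mul_sum, Finset.sum_mul]
      exact Finset.sum_congr rfl fun τ _ => hθ _
    rw [mul_smul_comm, smul_mul_assoc] at h2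
    have h3 : ((nS E₀ a.1 : ℕ) : ZMod ℓ) ≠ 0 := fun h =>
      (hPrb ℓ V₀ E₀ hF a.1).2.2.2.2.2.2.2.1.2.2 ((ZMod.natCast_eq_zero_iff _ _).mp h)
    have h4 := congrArg (fun A => (((nS E₀ a.1 : ℕ) : ZMod ℓ)⁻¹) • A) h2
    simp only [smul_smul, inv_mul_cancel₀ h3, one_smul] at h4
    exact h4
  · intro e
    rw [Finset.mul_sum, Finset.sum_mul]
    let π : {a : Subgroup V₀ // a ∈ RL ℓ E₀} ≃ {a : Subgroup V₀ // a ∈ RL ℓ E₀} :=
      { toFun := fun a => ⟨mp e.1 a.1, hmpR e a.1 a.2⟩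
        invFun := fun a => ⟨mp (e⁻¹ : E₀).1 a.1, hmpR e⁻¹ a.1 a.2⟩
        left_inv := fun a => Subtype.ext (by
          show mp (e.1)⁻¹ (mp e.1 a.1) = a.1
          rw [← (hMpb V₀ (e.1)⁻¹ e.1 a.1 a.1).2.1, inv_mul_cancel, (hMpb V₀ e.1 e.1 a.1 a.1).1])
        right_inv := fun a => Subtype.ext (by
          show mp e.1 (mp (e.1)⁻¹ a.1) = a.1
          rw [← (hMpb V₀ e.1 (e.1)⁻¹ a.1 a.1).2.1, mul_inv_cancel, (hMpb V₀ e.1 e.1 a.1 a.1).1]) }
    refine Fintype.sum_equiv π _ _ fun a => ?_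
    rw [mul_smul_comm, smul_mul_assoc]
    show Z a.1 • (ρ e * P a) = Z (mp e.1 a.1) • (P (π a) * ρ e)
    rw [hZ a.1 a.2 e.1 e.2]
    congr 1
    refine LinearMap.ext fun v => ?_
    show ρ e (P a (Additive.ofMul (Additive.toMul v))) =
      P (π a) (ρ e (Additive.ofMul (Additive.toMul v)))
    rw [hP a, hρ, hρ, hP (π a)]
    exact congrArg Additive.ofMul (((hPrb ℓ V₀ E₀ hF a.1).2.2.2.1 e.1 e.2).2 _).symm

end Pool.Agent.PP.SE.H96
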