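import Pool.Agent.ASE.Stmts2

/-!
# Squad ASE, row GEA: the geometry of a reflection line
-/

set_option autoImplicit false

noncomputable section

namespace Pool.Agent.PP.SE.H96

open Pool.Agent.PP.SD

variable {V₀ : Type} [CommGroup V₀]

/-- the unnormalised average -/
def avg (E₀ : Subgroup (MulAut V₀)) (W : Subgroup V₀) (c : V₀) : V₀ :=
  ∏ᶠ τ : St E₀ W, (τ : MulAut V₀) c

theorem avg_eq [Finite V₀] (E₀ : Subgroup (MulAut V₀)) (W : Subgroup V₀)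
    [Fintype (St E₀ W)] (c : V₀) : avg E₀ W c = ∏ τ : St E₀ W, (τ : MulAut V₀) c :=
  finprod_eq_prod_of_fintype _

theorem avg_mul [Finite V₀] (E₀ : Subgroup (MulAut V₀)) (W : Subgroup V₀) (v w : V₀) :
    avg E₀ W (v * w) = avg E₀ W v * avg E₀ W w := by
  have := Fintype.ofFinite (St E₀ W)
  rw [avg_eq, avg_eq, avg_eq, ← Finset.prod_mul_distrib]
  exact Finset.prod_congr rfl fun τ _ => map_mul _ _ _

theorem avg_map [Finite V₀] (E₀ : Subgroup (MulAut V₀)) (W : Subgroup V₀) (v : V₀)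
    {τ : MulAut V₀} (hτ : τ ∈ St E₀ W) : avg E₀ W (τ v) = avg E₀ W v := by
  have := Fintype.ofFinite (St E₀ W)
  rw [avg_eq, avg_eq]
  exact Fintype.prod_equiv (Equiv.mulRight (⟨τ, hτ⟩ : St E₀ W)) _ _ fun σ => rfl

theorem map_avg [Finite V₀] (E₀ : Subgroup (MulAut V₀)) (W : Subgroup V₀) (v : V₀)
    {τ : MulAut V₀} (hτ : τ ∈ St E₀ W) : τ (avg E₀ W v) = avg E₀ W v := by
  have := Fintype.ofFinite (St E₀ W)
  rw [avg_eq, map_prod]
  exact Fintype.prod_equiv (Equiv.mulLeft (⟨τ, hτ⟩ : St E₀ W)) _ _ fun σ => rfl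

/-- the homomorphism `pr` -/
def prh [Finite V₀] (ℓ : ℕ) (E₀ : Subgroup (MulAut V₀)) (W : Subgroup V₀) : V₀ →* V₀ :=
  MonoidHom.mk' (fun v => pr ℓ E₀ W v) fun v w => by
    show avg E₀ W (v * w) ^ _ = avg E₀ W v ^ _ * avg E₀ W w ^ _
    rw [avg_mul, mul_pow]

/-- the elements fixed by all elements of a set of automorphisms -/
def Fx (T : Set (MulAut V₀)) : Subgroup V₀ where
  carrier := {v | ∀ τ ∈ T, τ v = v}
  one_mem' := fun τ _ => map_one τ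
  mul_mem' := fun {a b} ha hb τ hτ => by rw [map_mul, ha τ hτ, hb τ hτ]
  inv_mem' := fun {a} ha τ hτ => by rw [map_inv, ha τ hτ]

theorem gea : GeaStmt := by
  intro ℓ hℓ V₀ _ _ E₀ hF W hW
  have hp : ℓ.Prime := hℓ.out
  obtain ⟨hWc, hn⟩ := hW
  -- a subgroup containing `W` and another element is everything
  have key : ∀ F : Subgroup V₀, W ≤ F → ∀ x ∈ F, x ∉ W → F = ⊤ := by
    intro F hWF x hxF hxW
    have h1 : Nat.card F ∣ ℓ ^ 2 := by
      rw [← hF.cd]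
      exact F.card_subgroup_dvd_card
    obtain ⟨j, hj, hFc⟩ := (Nat.dvd_prime_pow hp).mp h1
    have h2 : Nat.card W ∣ Nat.card F := Subgroup.card_dvd_of_le hWF
    rw [hWc] at h2
    have hj2 : j = 2 := by
      interval_cases j
      · rw [pow_zero] at hFc
        rw [hFc] at h2
        exact absurd (Nat.dvd_one.mp h2) hp.one_lt.ne'
      · rw [pow_one] at hFc
        have h3 : W = F := Subgroup.eq_of_le_of_card_ge hWF (by rw [hFc, hWc])
        exact absurd (h3 ▸ hxF) hxW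
      · rfl
    rw [hj2] at hFc
    exact Subgroup.eq_top_of_card_eq F (by rw [hFc, hF.cd])
  have hSE : St E₀ W ≤ E₀ := fun σ hσ => hσ.1
  have hnℓ : ¬ ℓ ∣ nS E₀ W := fun h => hF.cp (h.trans (Subgroup.card_dvd_of_le hSE))
  -- an element of `S` which fixes some `x ∉ W` is trivial
  have fix1 : ∀ τ ∈ St E₀ W, ∀ x, x ∉ W → τ x = x → τ = 1 := by
    intro τ hτ x hx hxτ
    have h1 : Fx ({τ} : Set (MulAut V₀)) = ⊤ := by
      refine key _ (fun w hw σ hσ => ?_) x (fun σ hσ => ?_) hx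
      · rw [Set.mem_singleton_iff] at hσ
        rw [hσ]
        exact hτ.2 w hw
      · rw [Set.mem_singleton_iff] at hσ
        rw [hσ]
        exact hxτ
    ext v
    have h2 : v ∈ Fx ({τ} : Set (MulAut V₀)) := h1 ▸ Subgroup.mem_top v
    exact h2 τ rfl
  -- the fixed elements are in `W`
  have fixW : ∀ v, (∀ τ ∈ St E₀ W, τ v = v) → v ∈ W := by
    intro v hv
    by_contra hvW
    have h1 : ∀ τ : St E₀ W, τ = 1 := fun τ =>
      Subtype.ext (fix1 τ τ.2 v hvW (hv τ τ.2))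
    have h2 : Subsingleton (St E₀ W) := ⟨fun a b => (h1 a).trans (h1 b).symm⟩
    have h3 : Nat.card (St E₀ W) ≤ 1 := Finite.card_le_one_iff_subsingleton.mpr h2
    exact absurd hn (not_lt.mpr h3)
  have hna : ∀ v : V₀, v ^ (nS E₀ W * ((nS E₀ W : ZMod ℓ)⁻¹).val) = v := by
    intro v
    have h1 : ((nS E₀ W * ((nS E₀ W : ZMod ℓ)⁻¹).val : ℕ) : ZMod ℓ) = ((1 : ℕ) : ZMod ℓ) := by
      rw [Nat.cast_mul, ZMod.natCast_val, ZMod.cast_id', id_eq, Nat.cast_one]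
      exact mul_inv_cancel₀ fun h => hnℓ ((ZMod.natCast_eq_zero_iff _ _).mp h)
    have h2 := (ZMod.natCast_eq_natCast_iff _ _ _).mp h1
    have h3 : orderOf v ∣ ℓ := orderOf_dvd_of_pow_eq_one (hF.ex v)
    calc v ^ (nS E₀ W * ((nS E₀ W : ZMod ℓ)⁻¹).val) = v ^ 1 :=
          pow_eq_pow_iff_modEq.mpr (h2.of_dvd h3)
      _ = v := pow_one v
  have prW : ∀ v, pr ℓ E₀ W v ∈ W := fun v =>
    W.pow_mem (fixW _ fun τ hτ => map_avg E₀ W v hτ) _
  have prm : ∀ v w, pr ℓ E₀ W (v * w) = pr ℓ E₀ W v * pr ℓ E₀ W w := fun v w =>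
    (prh ℓ E₀ W).map_mul v w
  have prw : ∀ w ∈ W, pr ℓ E₀ W w = w := by
    intro w hw
    have := Fintype.ofFinite (St E₀ W)
    have h1 : avg E₀ W w = w ^ nS E₀ W := by
      rw [avg_eq, Finset.prod_congr rfl fun (τ : St E₀ W) _ => τ.2.2 w hw, Finset.prod_const,
        Finset.card_univ, nS, Nat.card_eq_fintype_card]
    show avg E₀ W w ^ _ = w
    rw [h1, ← pow_mul]
    exact hna w
  have prτ : ∀ τ ∈ St E₀ W, ∀ v, pr ℓ E₀ W (τ v) = pr ℓ E₀ W v := by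
    intro τ hτ v
    show avg E₀ W (τ v) ^ _ = avg E₀ W v ^ _
    rw [avg_map E₀ W v hτ]
  have prk : ∀ y ∈ kW E₀ W, pr ℓ E₀ W y = 1 := by
    have h1 : kW E₀ W ≤ (prh ℓ E₀ W).ker := by
      refine (Subgroup.closure_le _).mpr ?_
      rintro y ⟨τ, hτ, v, rfl⟩
      show prh ℓ E₀ W (τ v * v⁻¹) = 1
      rw [map_mul, map_inv]
      show pr ℓ E₀ W (τ v) * (pr ℓ E₀ W v)⁻¹ = 1
      rw [prτ τ hτ v, mul_inv_cancel]
    exact fun y hy => h1 hy
  have vk : ∀ v, v * (pr ℓ E₀ W v)⁻¹ ∈ kW E₀ W := by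
    intro v
    have := Fintype.ofFinite (St E₀ W)
    rw [← QuotientGroup.eq_one_iff, QuotientGroup.mk_mul, QuotientGroup.mk_inv]
    have h1 : ∀ τ : St E₀ W, (((τ : MulAut V₀) v : V₀) : V₀ ⧸ kW E₀ W) = (v : V₀ ⧸ kW E₀ W) := by
      intro τ
      refine (QuotientGroup.eq).mpr ?_
      have h2 : (τ : MulAut V₀) v * v⁻¹ ∈ kW E₀ W := Subgroup.subset_closure ⟨τ, τ.2, v, rfl⟩
      have h3 := (kW E₀ W).inv_mem h2
      rw [mul_inv_rev, inv_inv, mul_comm] at h3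
      exact h3
    have h2 : ((avg E₀ W v : V₀) : V₀ ⧸ kW E₀ W) = (v : V₀ ⧸ kW E₀ W) ^ nS E₀ W := by
      have h3 : ((avg E₀ W v : V₀) : V₀ ⧸ kW E₀ W) =
          QuotientGroup.mk' (kW E₀ W) (∏ τ : St E₀ W, (τ : MulAut V₀) v) := by
        rw [avg_eq]; rfl
      have h4 : ∀ τ : St E₀ W, QuotientGroup.mk' (kW E₀ W) ((τ : MulAut V₀) v) =
          (v : V₀ ⧸ kW E₀ W) := h1
      rw [h3, map_prod]
      rw [Finset.prod_congr rfl fun (τ : St E₀ W) _ => h4 τ, Finset.prod_const,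
        Finset.card_univ, nS, Nat.card_eq_fintype_card]
    have h3 : ((pr ℓ E₀ W v : V₀) : V₀ ⧸ kW E₀ W) = (v : V₀ ⧸ kW E₀ W) := by
      show ((avg E₀ W v ^ ((nS E₀ W : ZMod ℓ)⁻¹).val : V₀) : V₀ ⧸ kW E₀ W) = _
      rw [QuotientGroup.mk_pow, h2, ← pow_mul, ← QuotientGroup.mk_pow, hna v]
    rw [h3, mul_inv_cancel]
  have inf : W ⊓ kW E₀ W = ⊥ := by
    rw [eq_bot_iff]
    rintro x ⟨hx1, hx2⟩
    rw [Subgroup.mem_bot, ← prw x hx1, prk x hx2]
  have sup : W ⊔ kW E₀ W = ⊤ := by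
    rw [eq_top_iff]
    intro v _
    have h1 : v = pr ℓ E₀ W v * (v * (pr ℓ E₀ W v)⁻¹) := by
      rw [mul_comm v, mul_inv_cancel_left]
    rw [h1]
    exact Subgroup.mul_mem_sup (prW v) (vk v)
  have hkc : Nat.card (kW E₀ W) = ℓ := by
    have h1 : W.IsComplement' (kW E₀ W) := by
      refine Subgroup.isComplement'_of_disjoint_and_mul_eq_univ (disjoint_iff.mpr inf) ?_
      rw [← Subgroup.mul_normal, sup]
      rfl
    have h2 := h1.card_mul_card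
    rw [hWc, hF.cd, pow_two] at h2
    exact Nat.eq_of_mul_eq_mul_left hp.pos h2
  have hWb : W ≠ ⊥ := by
    rintro rfl
    rw [Subgroup.card_bot] at hWc
    exact hp.one_lt.ne hWc
  have hWt : W ≠ ⊤ := by
    rintro rfl
    rw [Subgroup.card_top, hF.cd] at hWc
    have : ℓ * ℓ = ℓ * 1 := by rw [← pow_two, hWc, mul_one]
    exact hp.one_lt.ne' (Nat.eq_of_mul_eq_mul_left hp.pos this)
  have τk : ∀ τ ∈ St E₀ W, ∀ y ∈ kW E₀ W, τ y ∈ kW E₀ W := by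
    intro τ hτ y hy
    have h1 : τ y * y⁻¹ ∈ kW E₀ W := Subgroup.subset_closure ⟨τ, hτ, y, rfl⟩
    have h2 := (kW E₀ W).mul_mem h1 hy
    rwa [inv_mul_cancel_right] at h2
  have knW : ∀ y ∈ kW E₀ W, y ≠ 1 → y ∉ W := by
    intro y hy hy1 hyW
    have h1 : y ∈ W ⊓ kW E₀ W := ⟨hyW, hy⟩
    rw [inf, Subgroup.mem_bot] at h1
    exact hy1 h1
  have τfix : ∀ τ ∈ St E₀ W, ∀ y ∈ kW E₀ W, τ ≠ 1 → y ≠ 1 → τ y ≠ y := by
    intro τ hτ y hy hτ1 hy1 h
    exact hτ1 (fix1 τ hτ y (knW y hy hy1) h)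
  -- the action on `k`
  have hcyc : IsCyclic (kW E₀ W) := isCyclic_of_prime_card hkc
  obtain ⟨y₀, hy₀⟩ : ∃ y : kW E₀ W, y ≠ 1 := by
    have h1 : 1 < Nat.card (kW E₀ W) := by rw [hkc]; exact hp.one_lt
    have := (Finite.one_lt_card_iff_nontrivial.mp h1)
    exact exists_ne 1
  have hy₀' : (y₀ : V₀) ≠ 1 := fun h => hy₀ (Subtype.ext h)
  let ρ : St E₀ W →* MulAut (kW E₀ W) :=
    { toFun := fun τ =>
        { toFun := fun y => ⟨(τ : MulAut V₀) y, τk τ τ.2 y y.2⟩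
          invFun := fun y => ⟨((τ⁻¹ : St E₀ W) : MulAut V₀) y, τk _ (τ⁻¹).2 y y.2⟩
          left_inv := fun y => Subtype.ext (by
            show ((τ : MulAut V₀)⁻¹ * (τ : MulAut V₀)) (y : V₀) = y
            rw [inv_mul_cancel]; rfl)
          right_inv := fun y => Subtype.ext (by
            show ((τ : MulAut V₀) * (τ : MulAut V₀)⁻¹) (y : V₀) = y
            rw [mul_inv_cancel]; rfl)
          map_mul' := fun y z => Subtype.ext (map_mul (τ : MulAut V₀) (y : V₀) (z : V₀)) }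
      map_one' := rfl
      map_mul' := fun τ σ => rfl }
  have hρ : Function.Injective ρ := by
    rw [injective_iff_map_eq_one]
    intro τ hτ
    have h1 : (ρ τ y₀ : kW E₀ W) = y₀ := by rw [hτ]; rfl
    have h2 : (τ : MulAut V₀) (y₀ : V₀) = y₀ := congrArg Subtype.val h1
    by_contra h3
    exact τfix τ τ.2 y₀ y₀.2 (fun h => h3 (Subtype.ext h)) hy₀' h2
  have hcard : nS E₀ W ∣ ℓ - 1 := by
    have h1 : nS E₀ W ∣ Nat.card (MulAut (kW E₀ W)) := Subgroup.card_dvd_of_injective ρ hρ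
    rw [Nat.card_congr (IsCyclic.mulAutMulEquiv (kW E₀ W)).toEquiv, hkc,
      Nat.card_eq_fintype_card, ZMod.card_units] at h1
    exact h1
  have hScyc : IsCyclic (St E₀ W) := by
    have h1 : IsCyclic (ZMod (Nat.card (kW E₀ W)))ˣ := by
      rw [hkc]
      infer_instance
    have h2 : IsCyclic (MulAut (kW E₀ W)) :=
      isCyclic_of_injective (IsCyclic.mulAutMulEquiv (kW E₀ W)).toMonoidHom
        (IsCyclic.mulAutMulEquiv (kW E₀ W)).injective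
    exact isCyclic_of_injective ρ hρ
  have powers : ∀ τ ∈ St E₀ W, ∃ a : ℕ, ∀ y ∈ kW E₀ W, τ y = y ^ a := by
    intro τ hτ
    have h1 : (⟨τ y₀, τk τ hτ y₀ y₀.2⟩ : kW E₀ W) ∈ Submonoid.powers y₀ :=
      mem_powers_of_prime_card hkc hy₀
    obtain ⟨a, ha⟩ := h1
    have ha' : (y₀ : V₀) ^ a = τ y₀ := congrArg Subtype.val ha
    refine ⟨a, fun y hy => ?_⟩
    have h2 : (⟨y, hy⟩ : kW E₀ W) ∈ Submonoid.powers y₀ := mem_powers_of_prime_card hkc hy₀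
    obtain ⟨j, hj⟩ := h2
    have hj' : (y₀ : V₀) ^ j = y := congrArg Subtype.val hj
    rw [← hj', map_pow, ← ha', ← pow_mul, ← pow_mul, mul_comm]
  refine ⟨⟨hcard, hnℓ, hScyc, hkc, inf, sup, hWb, hWt⟩, fun v => ⟨prW v, vk v⟩, prm, prw, prk, prτ,
    fun τ hτ y hy => ⟨τk τ hτ y hy, fun h1 h2 => τfix τ hτ y hy h1 h2⟩, powers, ?_, ?_⟩
  · intro y hy
    show avg E₀ W y = 1
    have h1 : avg E₀ W y ^ (((nS E₀ W : ZMod ℓ)⁻¹).val) = 1 := prk y hy
    rw [← hna (avg E₀ W y), mul_comm, pow_mul, h1, one_pow]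
  · intro x hx
    exact ⟨key _ le_sup_left x (Subgroup.mem_sup_right (Subgroup.mem_zpowers x)) hx,
      fun τ hτ h => fix1 τ hτ x hx h⟩

end Pool.Agent.PP.SE.H96
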